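import Pool.Agent.H71.TSG.M02
import Pool.Agent.H71.TSG.M14

/-!
# Project IT: classes with a finite orbit in the cohomology with compact supports, translations, cup products

`CohF Λ K B n`: the simplicial complex `K` is locally finite, `B` is a subcomplex, the cohomology with compact supports of
`(K, B)` over the field of two elements is zero in the degrees less than `n`, and some nonzero class of the degree `n`
has a finite orbit under the group `Λ`.  (The same definition as in `Pool/Agent/CF/Defs`, on the bundle of modules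
`H71/TSG`.)
-/

set_option autoImplicit false
set_option linter.unusedSectionVars false

open Finset Pointwise

noncomputable section

namespace Pool.Agent.H74.IT

open Pool.Agent.H37.TM

section

variable {U : Type} [DecidableEq U]

/-- the finite cochain `f` of `K` relative to `B` on the simplices with `j + 1` vertices is a cocycle -/
def Cocy (K B : Set (Finset U)) (j : ℕ) (f : Finset U →₀ ZMod 2) : Prop := Rel K B ∅ (j + 1) f ∧ IsCob K B ∅ f 0

/-- the finite cochain `f` is the coboundary of a finite cochain of `K` relative to `B` on the simplices with `j`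
vertices -/
def Cobd (K B : Set (Finset U)) (j : ℕ) (f : Finset U →₀ ZMod 2) : Prop :=
  ∃ g : Finset U →₀ ZMod 2, Rel K B ∅ j g ∧ IsCob K B ∅ g f

/-- the translate of a finite cochain -/
def trn {Λ : Type} [Group Λ] [MulAction Λ U] (g : Λ) (w : Finset U →₀ ZMod 2) : Finset U →₀ ZMod 2 :=
  Finsupp.comapDomain (fun t => g • t) w fun _ _ _ _ hst => smul_left_cancel g hst

/-- The simplicial complex `K` is locally finite, `B` is a subcomplex, the cohomology with compact supports of `(K, B)`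
over the field of two elements is zero in the degrees less than `n`, and in the degree `n` the class of some cocycle `z`
is not zero and has a finite orbit: there is a finite set `Z` of cocycles such that every translate of `z` is cohomologous
to an element of `Z`. -/
structure CohF (Λ : Type) [Group Λ] [MulAction Λ U] (K B : Set (Finset U)) (n : ℕ) : Prop where
  ne : ∀ s ∈ K, s.Nonempty
  down : ∀ s ∈ K, ∀ t, t ⊆ s → t.Nonempty → t ∈ K
  bd_sub : B ⊆ K
  bd_down : ∀ s ∈ B, ∀ t, t ⊆ s → t.Nonempty → t ∈ B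
  locfin : ∀ s ∈ K, {t | t ∈ K ∧ s ⊆ t}.Finite
  low : ∀ j < n, ∀ w, Cocy K B j w → Cobd K B j w
  cls : ∃ z, Cocy K B n z ∧ ¬ Cobd K B n z ∧ ∃ Z : Finset (Finset U →₀ ZMod 2),
    ∀ g : Λ, ∃ w ∈ Z, Cocy K B n w ∧ Cobd K B n (trn g z + w)

/-- a group which acts properly on the locally finite pair `(K, B)` -/
structure Prp (Λ : Type) [Group Λ] [MulAction Λ U] (K B : Set (Finset U)) : Prop where
  ne : ∀ s ∈ K, s.Nonempty
  down : ∀ s ∈ K, ∀ t, t ⊆ s → t.Nonempty → t ∈ K
  bd_sub : B ⊆ K
  bd_down : ∀ s ∈ B, ∀ t, t ⊆ s → t.Nonempty → t ∈ B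
  locfin : ∀ s ∈ K, {t | t ∈ K ∧ s ⊆ t}.Finite
  K_mem : ∀ (g : Λ) (s : Finset U), s ∈ K → g • s ∈ K
  B_mem : ∀ (g : Λ) (s : Finset U), s ∈ B → g • s ∈ B
  prop : ∀ s ∈ K, ∀ t : Finset U, {g : Λ | g • s = t}.Finite

end

section

variable {Λ U : Type} [Group Λ] [DecidableEq U] [MulAction Λ U] {K B : Set (Finset U)}

theorem Prp.mem_iff (h : Prp Λ K B) (g : Λ) (s : Finset U) : g • s ∈ K ↔ s ∈ K :=
  ⟨fun h1 => by simpa using h.K_mem g⁻¹ _ h1, h.K_mem g s⟩

/-- the simplices which contain one of finitely many simplices -/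
theorem Prp.cofaces (h : Prp Λ K B) {S : Set (Finset U)} (hS : S.Finite) :
    {T | T ∈ K ∧ ∃ t ∈ S, t ∈ K ∧ t ⊆ T}.Finite := by
  have h1 : {T | T ∈ K ∧ ∃ t ∈ S, t ∈ K ∧ t ⊆ T} ⊆ ⋃ t ∈ {t | t ∈ S ∧ t ∈ K}, {T | T ∈ K ∧ t ⊆ T} := by
    rintro T ⟨h1, t, h2, h3, h4⟩
    exact Set.mem_biUnion (show t ∈ {t | t ∈ S ∧ t ∈ K} from ⟨h2, h3⟩) ⟨h1, h4⟩
  refine Set.Finite.subset ?_ h1
  refine Set.Finite.biUnion (hS.subset fun t ht => ht.1) fun t ht => h.locfin t ht.2

/-- **Near elements.** -/
theorem Prp.near (h : Prp Λ K B) {S : Set (Finset U)} (hS : S.Finite) :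
    {a : Λ | ∃ g : Λ, ∃ t ∈ S, ∃ t' ∈ S, ∃ T ∈ K, t ∈ K ∧ t' ∈ K ∧ g • t ⊆ T ∧ (g * a) • t' ⊆ T}.Finite := by
  set S' : Set (Finset U) := {T | T ∈ K ∧ ∃ t ∈ S, t ∈ K ∧ t ⊆ T} with hS'
  have hS'f : S'.Finite := h.cofaces hS
  have hEf : (⋃ T ∈ S', ⋃ T' ∈ S', {x : Λ | x • T = T'}).Finite :=
    hS'f.biUnion fun T hT => hS'f.biUnion fun T' _ => h.prop T hT.1 T'
  refine hEf.subset ?_
  rintro a ⟨g, t, ht, t', ht', T, hT, htK, htK', h1, h2⟩
  rw [Set.mem_iUnion₂]
  refine ⟨(g * a)⁻¹ • T, ⟨(h.mem_iff _ _).2 hT, t', ht', htK', ?_⟩, Set.mem_iUnion₂.2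
    ⟨g⁻¹ • T, ⟨(h.mem_iff _ _).2 hT, t, ht, htK, ?_⟩, ?_⟩⟩
  · rw [← smul_finset_subset_smul_finset_iff (a := g * a), smul_inv_smul]
    exact h2
  · rw [← smul_finset_subset_smul_finset_iff (a := g), smul_inv_smul]
    exact h1
  · show a • (g * a)⁻¹ • T = g⁻¹ • T
    rw [← mul_smul, mul_inv_rev, mul_inv_cancel_left]

theorem erase_smul' (g : Λ) (s : Finset U) (v : U) : (g • s).erase (g • v) = g • s.erase v := by
  ext u
  rw [mem_erase, ← inv_smul_mem_iff, ← inv_smul_mem_iff, mem_erase]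
  constructor
  · rintro ⟨h1, h2⟩
    exact ⟨fun h3 => h1 (by rw [← h3, smul_inv_smul]), h2⟩
  · rintro ⟨h1, h2⟩
    exact ⟨fun h3 => h1 (by rw [h3, inv_smul_smul]), h2⟩

theorem sum_smul' {M : Type} [AddCommMonoid M] (g : Λ) (s : Finset U) (f : U → M) : ∑ v ∈ g • s, f v = ∑ v ∈ s, f (g • v) := by
  rw [show g • s = s.image (g • ·) from rfl]
  exact sum_image fun u _ v _ h => smul_left_cancel g h

theorem trn_apply (g : Λ) (w : Finset U →₀ ZMod 2) (t : Finset U) : trn g w t = w (g • t) := rfl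

theorem rel_trn (h : Prp Λ K B) (g : Λ) {q : ℕ} {w : Finset U →₀ ZMod 2} (hw : Rel K B ∅ q w) :
    Rel K B ∅ q (trn g w) := by
  intro t ht
  obtain ⟨h1, h2, -, h4⟩ := hw _ ht
  refine ⟨?_, fun h5 => h2 (h.B_mem g _ h5), empty_subset _, ?_⟩
  · have h5 := h.K_mem g⁻¹ _ h1
    rwa [inv_smul_smul] at h5
  · rwa [Finset.card_smul_finset] at h4

theorem cob_trn (h : Prp Λ K B) (g : Λ) {w : Finset U →₀ ZMod 2} {z : Finset U → ZMod 2}
    (hw : IsCob K B ∅ w z) : IsCob K B ∅ (trn g w) (fun t => z (g • t)) := by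
  intro t h1 h2 _
  have h3 : g • t ∉ B := fun h5 => h2 (by
    have h6 := h.B_mem g⁻¹ _ h5
    rwa [inv_smul_smul] at h6)
  have h4 := hw (g • t) (h.K_mem g _ h1) h3 (empty_subset _)
  rw [sdiff_empty] at h4 ⊢
  show ∑ v ∈ t, (trn g w) (t.erase v) = z (g • t)
  rw [← h4, sum_smul']
  refine sum_congr rfl fun v _ => ?_
  show w (g • t.erase v) = w ((g • t).erase (g • v))
  rw [erase_smul']

end

/-! ### Cup products with respect to a relation -/

section

variable {U : Type} [DecidableEq U] {r : U → U → Prop}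

/-- the relation is a strict total order on `s` -/
def TotOn (r : U → U → Prop) (s : Finset U) : Prop :=
  (∀ u ∈ s, ¬ r u u) ∧ (∀ u ∈ s, ∀ v ∈ s, ∀ w ∈ s, r u v → r v w → r u w) ∧ ∀ u ∈ s, ∀ v ∈ s, u ≠ v → r u v ∨ r v u

open Classical in
/-- the number of elements of `N` below `v` -/
def bel (r : U → U → Prop) (N : Finset U) (v : U) : ℕ := (N.filter fun b => r b v).card

/-- the first face -/
def f1 (r : U → U → Prop) (N s : Finset U) : Finset U := s.filter fun v => v ∈ N ∨ Even (bel r N v)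

/-- the second face -/
def f2 (r : U → U → Prop) (N s : Finset U) : Finset U := s.filter fun v => v ∈ N ∨ ¬ Even (bel r N v)

theorem f1_subset (r : U → U → Prop) (N s : Finset U) : f1 r N s ⊆ s := filter_subset _ _

theorem f2_subset (r : U → U → Prop) (N s : Finset U) : f2 r N s ⊆ s := filter_subset _ _

open Classical in
/-- the height in a simplex -/
def rk (r : U → U → Prop) (s : Finset U) (v : U) : ℕ := (s.filter fun b => r b v).card

theorem rk_lt {s : Finset U} (hs : TotOn r s) {u v : U} (hu : u ∈ s) (hv : v ∈ s) : rk r s u < rk r s v ↔ r u v := by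
  classical
  obtain ⟨h1, h2, h3⟩ := hs
  have key : ∀ u ∈ s, ∀ v ∈ s, r u v → rk r s u < rk r s v := by
    intro u hu v hv huv
    refine card_lt_card ?_
    rw [ssubset_iff_of_subset]
    · exact ⟨u, mem_filter.2 ⟨hu, huv⟩, fun h4 => h1 u hu (mem_filter.1 h4).2⟩
    · intro b hb
      rw [mem_filter] at hb ⊢
      exact ⟨hb.1, h2 b hb.1 u hu v hv hb.2 huv⟩
  constructor
  · intro h4
    by_contra h5
    by_cases h6 : u = v
    · rw [h6] at h4
      exact lt_irrefl _ h4
    · rcases h3 u hu v hv h6 with h7 | h7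
      · exact h5 h7
      · exact absurd (key v hv u hu h7) (by omega)
  · exact key u hu v hv

theorem rk_inj {s : Finset U} (hs : TotOn r s) : Set.InjOn (rk r s) (s : Set U) := by
  intro u hu v hv huv
  by_contra h
  rcases hs.2.2 u hu v hv h with h1 | h1
  · have := (rk_lt hs hu hv).2 h1
    omega
  · have := (rk_lt hs hv hu).2 h1
    omega

theorem bel_eq {s N : Finset U} (hs : TotOn r s) (hN : N ⊆ s) {v : U} (hv : v ∈ s) :
    bel r N v = below (rk r s) N v := by
  classical
  unfold bel below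
  congr 1
  exact filter_congr fun b hb => (rk_lt hs (hN hb) hv).symm

theorem f1_eq {s N t : Finset U} (hs : TotOn r s) (hN : N ⊆ s) (hts : t ⊆ s) :
    f1 r N t = face1 (rk r s) N t := by
  unfold f1 face1
  exact filter_congr fun v hv => by rw [bel_eq hs hN (hts hv)]

theorem f2_eq {s N t : Finset U} (hs : TotOn r s) (hN : N ⊆ s) (hts : t ⊆ s) :
    f2 r N t = face2 (rk r s) N t := by
  unfold f2 face2
  exact filter_congr fun v hv => by rw [bel_eq hs hN (hts hv)]

/-- the cup product of order `m - 1` -/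
def cupM (r : U → U → Prop) (m : ℕ) (x y : Finset U → ZMod 2) (s : Finset U) : ZMod 2 :=
  ∑ N ∈ s.powersetCard m, x (f1 r N s) * y (f2 r N s)

theorem cupM_eq {s t : Finset U} (hs : TotOn r s) (hts : t ⊆ s) (m : ℕ) (x y : Finset U → ZMod 2) :
    cupM r m x y t = cup (rk r s) m x y t := by
  unfold cupM cup
  refine sum_congr rfl fun N hN => ?_
  have h1 := (mem_powersetCard.1 hN).1.trans hts
  rw [f1_eq hs h1 hts, f2_eq hs h1 hts]

/-- the coboundary -/
def cobW (x : Finset U → ZMod 2) (s : Finset U) : ZMod 2 := ∑ v ∈ s, x (s.erase v)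

/-- **The coboundary of the cup products.** -/
theorem cob_cupM (m : ℕ) (x y : Finset U → ZMod 2) {s : Finset U} (hs : TotOn r s) :
    ∑ v ∈ s, cupM r (m + 1) x y (s.erase v) =
      cupM r (m + 1) (cobW x) y s + cupM r (m + 1) x (cobW y) s + (cupM r m x y s + cupM r m y x s) := by
  have h1 : ∑ v ∈ s, cupM r (m + 1) x y (s.erase v) = cob (cup (rk r s) (m + 1) x y) s := by
    unfold cob
    exact sum_congr rfl fun v _ => cupM_eq hs (erase_subset _ _) _ _ _
  rw [h1, cob_cup _ _ _ _ _ (rk_inj hs), cupM_eq hs subset_rfl, cupM_eq hs subset_rfl, cupM_eq hs subset_rfl,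
    cupM_eq hs subset_rfl]
  rfl

theorem cupM_zero (r : U → U → Prop) (x y : Finset U → ZMod 2) (s : Finset U) (h : y ∅ = 0) : cupM r 0 x y s = 0 := by
  unfold cupM
  rw [powersetCard_zero, sum_singleton]
  have h1 : f2 r ∅ s = ∅ := by
    unfold f2 bel
    rw [filter_eq_empty_iff]
    intro v _
    simp
  rw [h1, h, mul_zero]

theorem cupM_self (r : U → U → Prop) (x y : Finset U → ZMod 2) (s : Finset U) : cupM r s.card x y s = x s * y s := by
  unfold cupM
  rw [powersetCard_self, sum_singleton]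
  have h1 : f1 r s s = s := by
    unfold f1
    exact filter_true_of_mem fun v hv => Or.inl hv
  have h2 : f2 r s s = s := by
    unfold f2
    exact filter_true_of_mem fun v hv => Or.inl hv
  rw [h1, h2]

theorem cupM_congr {m : ℕ} {x y x' y' : Finset U → ZMod 2} {s : Finset U} (hx : ∀ t ⊆ s, x t = x' t)
    (hy : ∀ t ⊆ s, y t = y' t) : cupM r m x y s = cupM r m x' y' s := by
  unfold cupM
  exact sum_congr rfl fun N _ => by rw [hx _ (f1_subset r N s), hy _ (f2_subset r N s)]

theorem cupM_sum_left {ι : Type} (I : Finset ι) (m : ℕ) (x : ι → Finset U → ZMod 2) (y : Finset U → ZMod 2) (s : Finset U) :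
    cupM r m (fun t => ∑ i ∈ I, x i t) y s = ∑ i ∈ I, cupM r m (x i) y s := by
  unfold cupM
  rw [sum_comm]
  exact sum_congr rfl fun N _ => by rw [sum_mul]

theorem cupM_sum_right {ι : Type} (I : Finset ι) (m : ℕ) (x : Finset U → ZMod 2) (y : ι → Finset U → ZMod 2) (s : Finset U) :
    cupM r m x (fun t => ∑ i ∈ I, y i t) s = ∑ i ∈ I, cupM r m x (y i) s := by
  unfold cupM
  rw [sum_comm]
  exact sum_congr rfl fun N _ => by rw [mul_sum]

/-- if the product is not zero, both factors are not zero on some faces -/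
theorem cupM_ne {m : ℕ} {x y : Finset U → ZMod 2} {s : Finset U} (h : cupM r m x y s ≠ 0) :
    ∃ t ⊆ s, ∃ t' ⊆ s, x t ≠ 0 ∧ y t' ≠ 0 ∧ m ≤ t.card := by
  obtain ⟨N, hN, h1⟩ := exists_ne_zero_of_sum_ne_zero h
  obtain ⟨h2, h3⟩ := mem_powersetCard.1 hN
  refine ⟨_, f1_subset r N s, _, f2_subset r N s, left_ne_zero_of_mul h1, right_ne_zero_of_mul h1, ?_⟩
  rw [← h3]
  refine card_le_card fun v hv => ?_
  unfold f1
  exact mem_filter.2 ⟨h2 hv, Or.inl hv⟩

theorem exists_tot (U : Type) : ∃ r : U → U → Prop, ∀ s : Finset U, TotOn r s := by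
  refine ⟨WellOrderingRel, fun s => ⟨fun u _ => irrefl_of WellOrderingRel u, fun u _ v _ w _ h1 h2 => _root_.trans h1 h2,
    fun u _ v _ huv => ?_⟩⟩
  rcases trichotomous_of WellOrderingRel u v with h | h | h
  · exact Or.inl h
  · exact absurd h huv
  · exact Or.inr h

end

/-- the sum over the pairs of entries which are deleted is zero -/
theorem sum_erase_erase {P M : Type} [AddCommGroup M] (h2 : ∀ x : M, x + x = 0) (F : List P → M) (σ : List P) :
    ∑ i ∈ range σ.length, ∑ j ∈ range (σ.length - 1), F ((σ.eraseIdx i).eraseIdx j) = 0 := by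
  classical
  have ee : ∀ (l : List P) (i j : ℕ), i ≤ j → (l.eraseIdx i).eraseIdx j = (l.eraseIdx (j + 1)).eraseIdx i := by
    intro l
    induction l with
    | nil =>
      intro i j _
      simp
    | cons a l ih =>
      intro i j hij
      cases i with
      | zero => rfl
      | succ i =>
        cases j with
        | zero => exact absurd hij (by omega)
        | succ j =>
          simp only [List.eraseIdx_cons_succ]
          rw [ih i j (by omega)]
  rw [Finset.sum_sigma']
  refine Finset.sum_involution (fun p _ => if p.1 ≤ p.2 then ⟨p.2 + 1, p.1⟩ else ⟨p.2, p.1 - 1⟩) ?_ ?_ ?_ ?_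
  · rintro ⟨i, j⟩ h
    by_cases hij : i ≤ j
    · simp only [if_pos hij]
      rw [ee _ _ _ hij]
      exact h2 _
    · simp only [if_neg hij]
      have h3 := ee σ j (i - 1) (by omega)
      rw [Nat.sub_add_cancel (by omega : 1 ≤ i)] at h3
      rw [h3]
      exact h2 _
  · rintro ⟨i, j⟩ h _ he
    by_cases hij : i ≤ j
    · simp only [if_pos hij] at he
      have h3 : j + 1 = i := congrArg Sigma.fst he
      omega
    · simp only [if_neg hij] at he
      have h3 : j = i := congrArg Sigma.fst he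
      omega
  · rintro ⟨i, j⟩ h
    rw [Finset.mem_sigma, Finset.mem_range, Finset.mem_range] at h
    have h3 : i < σ.length := h.1
    have h4 : j < σ.length - 1 := h.2
    by_cases hij : i ≤ j
    · simp only [if_pos hij]
      rw [Finset.mem_sigma, Finset.mem_range, Finset.mem_range]
      exact ⟨(by omega : j + 1 < σ.length), (by omega : i < σ.length - 1)⟩
    · simp only [if_neg hij]
      rw [Finset.mem_sigma, Finset.mem_range, Finset.mem_range]
      exact ⟨(by omega : j < σ.length), (by omega : i - 1 < σ.length - 1)⟩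
  · rintro ⟨i, j⟩ h
    by_cases hij : i ≤ j
    · simp only [if_pos hij]
      rw [if_neg (by omega : ¬ j + 1 ≤ i)]
      rfl
    · simp only [if_neg hij]
      rw [if_pos (by omega : j ≤ i - 1), Nat.sub_add_cancel (by omega : 1 ≤ i)]

end Pool.Agent.H74.IT
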