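import Pool.Agent.H74.IT.Phi

/-!
# Project IT: the supports of the cochains of the lists

Induction over `l` (`Ph_zero`, `Ph_one`, `Ph_succ`).  `l = 1`, `σ = [g]`: `Ph` of `[p g]` is the translate of `w (p g) ∈ Z` by
`p g`.  `l = k + 2`, `σ = g :: σ'`: `trn (p g)` of the sum over `i` of `Ph` of `(σ.eraseIdx i).map (p * ·)` has its support in
a fixed finite set (`g⁻¹ • ⋃ S i`), so it is one of finitely many finite cochains, and `prim` of them has finitely many
supports.
-/

set_option autoImplicit false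
set_option linter.unusedSectionVars false

open Finset Pointwise

noncomputable section

namespace Pool.Agent.H74.IT

open Pool.Agent.H37.TM

variable {P U : Type} [Group P] [DecidableEq U] [MulAction P U] {K B : Set (Finset U)} {n : ℕ}

private theorem finite_finsupp {α : Type} {F : Set α} (hF : F.Finite) :
    {u : α →₀ ZMod 2 | ∀ t, u t ≠ 0 → t ∈ F}.Finite := by
  have : Finite F := hF.to_subtype
  refine Set.Finite.of_finite_image (f := fun u : α →₀ ZMod 2 => fun t : F => u t.1) (Set.toFinite _) ?_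
  intro u hu v hv huv
  refine Finsupp.ext fun t => ?_
  by_cases ht : t ∈ F
  · exact congrFun huv ⟨t, ht⟩
  · have h1 : u t = 0 := by
      by_contra h
      exact ht (hu t h)
    have h2 : v t = 0 := by
      by_contra h
      exact ht (hv t h)
    rw [h1, h2]

private theorem eraseIdx_mul (p : P) : ∀ (σ : List P) (i : ℕ), (σ.map (p * ·)).eraseIdx i = (σ.eraseIdx i).map (p * ·)
  | [], i => by simp
  | a :: l, 0 => by simp
  | a :: l, i + 1 => by
    simp only [List.map_cons, List.eraseIdx_cons_succ]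
    rw [eraseIdx_mul p l i]

theorem Ph_ctl {Z : Finset (Finset U →₀ ZMod 2)} {w : P → Finset U →₀ ZMod 2} (hw : ∀ g, w g ∈ Z) :
    ∀ (l : ℕ) (σ : List P), σ.length = l → ∃ S : Set (Finset U), S.Finite ∧ ∀ (p : P) (t : Finset U),
      Ph K B n w l (σ.map (p * ·)) t ≠ 0 → ∃ s ∈ S, t = p • s := by
  classical
  intro l
  induction l with
  | zero =>
    intro σ _
    refine ⟨∅, Set.finite_empty, fun p t ht => ?_⟩
    rw [Ph_zero] at ht
    exact absurd rfl ht
  | succ l ih =>
    rcases l with _ | k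
    · intro σ hσ
      obtain ⟨g, rfl⟩ := List.length_eq_one_iff.1 hσ
      refine ⟨⋃ v ∈ (Z : Set (Finset U →₀ ZMod 2)), (fun u => g • u) '' (v.support : Set (Finset U)), ?_, fun p t ht => ?_⟩
      · exact Z.finite_toSet.biUnion fun v _ => v.support.finite_toSet.image _
      · rw [Ph_one] at ht
        have h1 : w (p * g) ((p * g)⁻¹ • t) ≠ 0 := ht
        refine ⟨g • (p * g)⁻¹ • t, ?_, ?_⟩
        · exact Set.mem_biUnion (mem_coe.2 (hw (p * g))) ⟨_, mem_coe.2 (Finsupp.mem_support_iff.2 h1), rfl⟩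
        · rw [← mul_smul, smul_inv_smul]
    · intro σ hσ
      obtain ⟨g, σ', rfl⟩ : ∃ g σ', σ = g :: σ' := by
        rcases σ with _ | ⟨g, σ'⟩
        · exact absurd hσ (by simp)
        · exact ⟨g, σ', rfl⟩
      have hlen : ∀ i ∈ range (k + 2), ((g :: σ').eraseIdx i).length = k + 1 := by
        intro i hi
        rw [List.length_eraseIdx_of_lt (by rw [hσ]; exact mem_range.1 hi), hσ]
        rfl
      choose! S hS1 hS2 using fun (i : ℕ) (hi : i ∈ range (k + 2)) => ih ((g :: σ').eraseIdx i) (hlen i hi)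
      set F : Set (Finset U) := ⋃ i ∈ (range (k + 2) : Finset ℕ), (fun s => g⁻¹ • s) '' S i with hFdef
      have hF : F.Finite := by
        refine Set.Finite.biUnion (range (k + 2)).finite_toSet fun i hi => (hS1 i hi).image _
      set Q : P → (Finset U →₀ ZMod 2) := fun p => trn (p * g)
        (∑ i ∈ range (k + 2), Ph K B n w (k + 1) (((g :: σ').map (p * ·)).eraseIdx i)) with hQ
      have hQF : ∀ p t, Q p t ≠ 0 → t ∈ F := by
        intro p t ht
        have h1 : (∑ i ∈ range (k + 2), Ph K B n w (k + 1) (((g :: σ').map (p * ·)).eraseIdx i)) ((p * g) • t) ≠ 0 := ht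
        rw [Finsupp.finsetSum_apply] at h1
        obtain ⟨i, hi, h2⟩ := exists_ne_zero_of_sum_ne_zero h1
        rw [eraseIdx_mul] at h2
        obtain ⟨s, hs, h3⟩ := hS2 i hi p _ h2
        rw [mul_smul] at h3
        have h4 := smul_left_cancel p h3
        refine Set.mem_biUnion (x := i) hi ⟨s, hs, ?_⟩
        show g⁻¹ • s = t
        rw [← h4, inv_smul_smul]
      have hfin := finite_finsupp hF
      refine ⟨⋃ u ∈ {u : Finset U →₀ ZMod 2 | ∀ t, u t ≠ 0 → t ∈ F},
        (fun s => g • s) '' ((prim K B (n - k) u).support : Set (Finset U)), ?_, fun p t ht => ?_⟩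
      · exact hfin.biUnion fun u _ => (prim K B (n - k) u).support.finite_toSet.image _
      · rw [Ph_succ] at ht
        have h1 : prim K B (n - k) (Q p) ((p * g)⁻¹ • t) ≠ 0 := ht
        refine ⟨g • (p * g)⁻¹ • t, ?_, ?_⟩
        · exact Set.mem_biUnion (x := Q p) (hQF p) ⟨_, mem_coe.2 (Finsupp.mem_support_iff.2 h1), rfl⟩
        · rw [← mul_smul, smul_inv_smul]

end Pool.Agent.H74.IT
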