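import Pool.Agent.H74.IT.Cb
import Pool.Agent.H74.IT.Ctr
import Pool.Agent.H71.TSG.M68

/-!
# Project IT: intersection numbers of lists from a class with a finite orbit

`exists_inter_listC`: a group which acts properly on a pair `(K, B)` with `CohF P K B n` has intersection numbers of lists
of the dimension `n`.
-/

set_option autoImplicit false
set_option linter.unusedSectionVars false

open Finset Pointwise

noncomputable section

namespace Pool.Agent.H74.IT

open Pool.Agent.H37.TM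
open Pool.Agent.H65.RM (PAct)
open Pool.Agent.H84.RX (InterL)

variable {P U : Type} [Group P] [DecidableEq U] [MulAction P U] {K B : Set (Finset U)} {n : ℕ}
  {z : Finset U →₀ ZMod 2} {Z : Finset (Finset U →₀ ZMod 2)} {w : P → Finset U →₀ ZMod 2}

open Classical in
/-- the restriction to the simplices of `(K, B)` with `q` vertices -/
def tr (K B : Set (Finset U)) (q : ℕ) (f : Finset U → ZMod 2) : Finset U → ZMod 2 :=
  fun s => if s ∈ K ∧ s ∉ B ∧ s.card = q then f s else 0

open Classical in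
/-- the restriction as a finite cochain, zero if it is not finite -/
def rs (K B : Set (Finset U)) (q : ℕ) (f : Finset U → ZMod 2) : Finset U →₀ ZMod 2 :=
  if h : (Function.support (tr K B q f)).Finite then Finsupp.ofSupportFinite _ h else 0

theorem rs_apply {q : ℕ} {f : Finset U → ZMod 2} (h : (Function.support (tr K B q f)).Finite) (s : Finset U) :
    rs K B q f s = tr K B q f s := by
  unfold rs
  rw [dif_pos h]
  rfl

theorem rs_ne {q : ℕ} {f : Finset U → ZMod 2} {s : Finset U} (h : rs K B q f s ≠ 0) :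
    (s ∈ K ∧ s ∉ B ∧ s.card = q) ∧ f s ≠ 0 := by
  by_cases hf : (Function.support (tr K B q f)).Finite
  · rw [rs_apply hf] at h
    unfold tr at h
    split_ifs at h with h1
    · exact ⟨h1, h⟩
    · exact absurd rfl h
  · unfold rs at h
    rw [dif_neg hf] at h
    exact absurd rfl h

theorem rs_rel (q : ℕ) (f : Finset U → ZMod 2) : Rel K B ∅ q (rs K B q f) := by
  intro t ht
  obtain ⟨⟨h1, h2, h3⟩, -⟩ := rs_ne ht
  exact ⟨h1, h2, empty_subset _, h3⟩

theorem rs_congr {q : ℕ} {f g : Finset U → ZMod 2} (h : ∀ s, s ∈ K → s ∉ B → s.card = q → f s = g s) :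
    rs K B q f = rs K B q g := by
  have h1 : tr K B q f = tr K B q g := by
    funext s
    unfold tr
    split_ifs with h2
    · exact h s h2.1 h2.2.1 h2.2.2
    · rfl
  by_cases hf : (Function.support (tr K B q f)).Finite
  · have hg : (Function.support (tr K B q g)).Finite := by rwa [h1] at hf
    refine Finsupp.ext fun s => ?_
    rw [rs_apply hf, rs_apply hg, h1]
  · have hg : ¬ (Function.support (tr K B q g)).Finite := by rwa [h1] at hf
    unfold rs
    rw [dif_neg hf, dif_neg hg]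

theorem rs_zero (q : ℕ) : rs K B q (fun _ => 0) = 0 := by
  refine Finsupp.ext fun s => ?_
  by_contra h
  exact (rs_ne h).2 rfl

theorem rs_sum {ι : Type} (I : Finset ι) {q : ℕ} {f : ι → Finset U → ZMod 2}
    (h : ∀ i ∈ I, (Function.support (tr K B q (f i))).Finite) :
    rs K B q (fun s => ∑ i ∈ I, f i s) = ∑ i ∈ I, rs K B q (f i) := by
  classical
  have h1 : ∀ s, tr K B q (fun s => ∑ i ∈ I, f i s) s = ∑ i ∈ I, tr K B q (f i) s := by
    intro s
    unfold tr
    by_cases h2 : s ∈ K ∧ s ∉ B ∧ s.card = q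
    · simp only [if_pos h2]
    · simp only [if_neg h2, sum_const_zero]
  have h2 : (Function.support (tr K B q (fun s => ∑ i ∈ I, f i s))).Finite := by
    refine (I.finite_toSet.biUnion h).subset fun s hs => ?_
    rw [Function.mem_support, h1] at hs
    obtain ⟨i, hi, hi'⟩ := exists_ne_zero_of_sum_ne_zero hs
    exact Set.mem_biUnion (mem_coe.2 hi) hi'
  refine Finsupp.ext fun s => ?_
  rw [rs_apply h2, h1, Finsupp.finsetSum_apply]
  exact sum_congr rfl fun i hi => (rs_apply (h i hi) s).symm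

variable {r : U → U → Prop}

/-- the products have finite supports -/
theorem fin_cup (h : Prp P K B) {a q m : ℕ} {x : Finset U →₀ ZMod 2} (hx : Rel K B ∅ a x)
    (y : Finset U → ZMod 2) : (Function.support (tr K B q (cupM r m x y))).Finite := by
  refine (h.cofaces x.hasFiniteSupport).subset fun s hs => ?_
  rw [Function.mem_support] at hs
  unfold tr at hs
  split_ifs at hs with h1
  · obtain ⟨t, ht, -, -, hxt, -, -⟩ := cupM_ne hs
    exact ⟨h1.1, t, hxt, (hx t hxt).1, ht⟩
  · exact absurd rfl hs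

theorem emp_zero (h : Prp P K B) {a : ℕ} {x : Finset U →₀ ZMod 2} (hx : Rel K B ∅ a x) : x ∅ = 0 := by
  by_contra h0
  exact (h.ne _ (hx ∅ h0).1).ne_empty rfl

/-- the coboundary on the faces of a simplex -/
theorem cobW_eq (h : Prp P K B) {a b : ℕ} {x X : Finset U →₀ ZMod 2} (hx : Rel K B ∅ a x)
    (hX : Rel K B ∅ b X) (hc : IsCob K B ∅ x X) {s t : Finset U} (hs : s ∈ K) (hts : t ⊆ s) : cobW x t = X t := by
  rcases t.eq_empty_or_nonempty with rfl | hne
  · rw [emp_zero h hX]
    rfl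
  · have htK : t ∈ K := h.down s hs t hts hne
    by_cases htB : t ∈ B
    · have h1 : X t = 0 := by
        by_contra h0
        exact (hX t h0).2.1 htB
      rw [h1]
      refine sum_eq_zero fun v _ => ?_
      by_contra h0
      obtain ⟨h2, h3, -⟩ := hx _ h0
      exact h3 (h.bd_down t htB _ (erase_subset _ _) (h.ne _ h2))
    · have h1 := hc t htK htB (empty_subset _)
      rw [sdiff_empty] at h1
      exact h1

/-- the products vanish on the simplices of `B` -/
theorem cupM_B (h : Prp P K B) {a m : ℕ} {x : Finset U →₀ ZMod 2} (hx : Rel K B ∅ a x)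
    (y : Finset U → ZMod 2) {t : Finset U} (ht : t ∈ B ∨ t = ∅) : cupM r (m + 1) x y t = 0 := by
  by_contra h0
  obtain ⟨t', h1, -, -, h2, -, h3⟩ := cupM_ne h0
  obtain ⟨h4, h5, -⟩ := hx t' h2
  rcases ht with ht | ht
  · exact h5 (h.bd_down t ht t' h1 (h.ne _ h4))
  · rw [ht, subset_empty] at h1
    rw [h1, card_empty] at h3
    omega

/-- **The relation.** -/
theorem lam_rel (h : Prp P K B) (hr : ∀ s, TotOn r s) {lam : (Finset U →₀ ZMod 2) →ₗ[ZMod 2] ZMod 2}
    (hl : ∀ f : Finset U →₀ ZMod 2, Rel K B ∅ (n + 1) f → Cobd K B n f → lam f = 0) {a a' b b' : ℕ}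
    {x X y Y : Finset U →₀ ZMod 2} (hx : Rel K B ∅ a x) (hX : Rel K B ∅ a' X) (hcx : IsCob K B ∅ x X)
    (hy : Rel K B ∅ b y) (hY : Rel K B ∅ b' Y) (hcy : IsCob K B ∅ y Y) (m : ℕ) :
    lam (rs K B (n + 1) (cupM r (m + 1) X y)) + lam (rs K B (n + 1) (cupM r (m + 1) x Y)) =
      lam (rs K B (n + 1) (cupM r m x y)) + lam (rs K B (n + 1) (cupM r m y x)) := by
  classical
  set W : Finset U →₀ ZMod 2 := rs K B (n + 1) (cupM r (m + 1) X y) + rs K B (n + 1) (cupM r (m + 1) x Y) +
    (rs K B (n + 1) (cupM r m x y) + rs K B (n + 1) (cupM r m y x)) with hW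
  have f1 := fin_cup (r := r) (q := n + 1) (m := m + 1) h hX y
  have f2 := fin_cup (r := r) (q := n + 1) (m := m + 1) h hx Y
  have f3 := fin_cup (r := r) (q := n + 1) (m := m) h hx y
  have f4 := fin_cup (r := r) (q := n + 1) (m := m) h hy x
  have f5 := fin_cup (r := r) (q := n) (m := m + 1) h hx y
  have hWs : ∀ s, W s = tr K B (n + 1) (cupM r (m + 1) X y) s + tr K B (n + 1) (cupM r (m + 1) x Y) s +
      (tr K B (n + 1) (cupM r m x y) s + tr K B (n + 1) (cupM r m y x) s) := by
    intro s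
    rw [hW, Finsupp.add_apply, Finsupp.add_apply, Finsupp.add_apply, rs_apply f1, rs_apply f2, rs_apply f3, rs_apply f4]
  have hWne : ∀ s, ¬ (s ∈ K ∧ s ∉ B ∧ s.card = n + 1) → W s = 0 := by
    intro s hs
    rw [hWs]
    unfold tr
    simp only [if_neg hs, add_zero]
  have hWR : Rel K B ∅ (n + 1) W := by
    intro s hs
    by_contra h1
    refine hs (hWne s fun h2 => h1 ⟨h2.1, h2.2.1, empty_subset _, h2.2.2⟩)
  have hWC : Cobd K B n W := by
    refine ⟨rs K B n (cupM r (m + 1) x y), rs_rel _ _, fun t ht ht' _ => ?_⟩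
    rw [sdiff_empty]
    by_cases hc : t.card = n + 1
    · have h1 : ∀ v ∈ t, rs K B n (cupM r (m + 1) x y) (t.erase v) = cupM r (m + 1) x y (t.erase v) := by
        intro v hv
        rw [rs_apply f5]
        unfold tr
        by_cases h2 : t.erase v ∈ K ∧ t.erase v ∉ B ∧ (t.erase v).card = n
        · rw [if_pos h2]
        · rw [if_neg h2]
          symm
          apply cupM_B h hx
          have h3 : (t.erase v).card = n := by
            rw [card_erase_of_mem hv, hc]
            rfl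
          rcases (t.erase v).eq_empty_or_nonempty with h4 | h4
          · exact Or.inr h4
          · left
            by_contra h5
            exact h2 ⟨h.down t ht _ (erase_subset _ _) h4, h5, h3⟩
      rw [sum_congr rfl h1, cob_cupM m x y (hr t), hWs]
      unfold tr
      have h2 : t ∈ K ∧ t ∉ B ∧ t.card = n + 1 := ⟨ht, ht', hc⟩
      simp only [if_pos h2]
      rw [cupM_congr (x' := X) (y' := y) (fun t' h3 => cobW_eq h hx hX hcx ht h3) (fun _ _ => rfl),
        cupM_congr (x := x) (x' := x) (y' := Y) (fun _ _ => rfl) (fun t' h3 => cobW_eq h hy hY hcy ht h3)]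
    · rw [hWne t fun h1 => hc h1.2.2]
      refine sum_eq_zero fun v hv => ?_
      by_contra h0
      obtain ⟨⟨-, -, h1⟩, -⟩ := rs_ne h0
      rw [card_erase_of_mem hv] at h1
      have h2 : 0 < t.card := card_pos.2 ⟨v, hv⟩
      omega
  have h1 := hl W hWR hWC
  rw [hW, map_add, map_add, map_add] at h1
  exact CharTwo.add_eq_zero.1 h1

/-- the pairing -/
def HH (K B : Set (Finset U)) (n : ℕ) (w : P → Finset U →₀ ZMod 2) (r : U → U → Prop)
    (lam : (Finset U →₀ ZMod 2) →ₗ[ZMod 2] ZMod 2) (σ τ : List P) : ZMod 2 :=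
  lam (rs K B (n + 1) (cupM r (n + 3 - (σ.length + τ.length)) (Ph K B n w σ.length σ) (Ph K B n w τ.length τ)))

theorem Ph_rel (h : Prp P K B) (hD : Dat K B n z Z w) (l : ℕ) (σ : List P) (hσ : σ.length = l) :
    Rel K B ∅ (n + 2 - l) (Ph K B n w l σ) := by
  cases l with
  | zero =>
    rw [Ph_zero]
    exact fun t ht => absurd rfl ht
  | succ k => exact (Ph_main h hD k σ hσ).1

theorem lam_zero (h : Prp P K B) {lam : (Finset U →₀ ZMod 2) →ₗ[ZMod 2] ZMod 2} {b : ℕ}
    (x : Finset U → ZMod 2) {y : Finset U →₀ ZMod 2} (hy : Rel K B ∅ b y) :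
    lam (rs K B (n + 1) (cupM r 0 x y)) = 0 := by
  rw [rs_congr (g := fun _ => 0) fun s _ _ _ => cupM_zero r x y s (emp_zero h hy), rs_zero, map_zero]

theorem lam_sum_left (h : Prp P K B) {lam : (Finset U →₀ ZMod 2) →ₗ[ZMod 2] ZMod 2} {a : ℕ}
    {ι : Type} (I : Finset ι) {x : ι → Finset U →₀ ZMod 2} (hx : ∀ i ∈ I, Rel K B ∅ a (x i)) (m : ℕ) (y : Finset U → ZMod 2) :
    ∑ i ∈ I, lam (rs K B (n + 1) (cupM r m (x i) y)) =
      lam (rs K B (n + 1) (cupM r m (∑ i ∈ I, x i : Finset U →₀ ZMod 2) y)) := by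
  rw [← map_sum, ← rs_sum I fun i hi => fin_cup h (hx i hi) y]
  congr 1
  refine rs_congr fun s _ _ _ => ?_
  rw [← cupM_sum_left]
  refine cupM_congr (fun t _ => ?_) fun _ _ => rfl
  rw [Finsupp.finsetSum_apply]

theorem lam_sum_right (h : Prp P K B) {lam : (Finset U →₀ ZMod 2) →ₗ[ZMod 2] ZMod 2} {a : ℕ}
    {ι : Type} (I : Finset ι) {x : Finset U →₀ ZMod 2} (hx : Rel K B ∅ a x) (m : ℕ) (y : ι → Finset U →₀ ZMod 2) :
    ∑ i ∈ I, lam (rs K B (n + 1) (cupM r m x (y i))) =
      lam (rs K B (n + 1) (cupM r m x (∑ i ∈ I, y i : Finset U →₀ ZMod 2))) := by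
  rw [← map_sum, ← rs_sum I fun i _ => fin_cup h hx (y i)]
  congr 1
  refine rs_congr fun s _ _ _ => ?_
  rw [← cupM_sum_right]
  refine cupM_congr (fun _ _ => rfl) fun t _ => ?_
  rw [Finsupp.finsetSum_apply]

/-- **The pairing has the properties of the intersection numbers.** -/
theorem inter_HH (h : Prp P K B) (hD : Dat K B n z Z w) (hr : ∀ s, TotOn r s)
    {lam : (Finset U →₀ ZMod 2) →ₗ[ZMod 2] ZMod 2} (hl : ∀ f : Finset U →₀ ZMod 2, Rel K B ∅ (n + 1) f → Cobd K B n f → lam f = 0)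
    (hz : lam z = 1) : InterL P n (HH K B n w r lam) := by
  classical
  refine ⟨?_, ?_, ?_, ?_, ?_, ?_⟩
  · intro τ
    unfold HH
    rw [List.length_nil, Ph_zero]
    rw [rs_congr (g := fun _ => 0), rs_zero, map_zero]
    intro s _ _ _
    by_contra h0
    obtain ⟨t, -, -, -, h1, -⟩ := cupM_ne h0
    exact h1 rfl
  · intro σ
    unfold HH
    rw [List.length_nil, Ph_zero]
    rw [rs_congr (g := fun _ => 0), rs_zero, map_zero]
    intro s _ _ _
    by_contra h0
    obtain ⟨t, -, t', -, -, h1, -⟩ := cupM_ne h0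
    exact h1 rfl
  · intro σ τ hσ hτ
    obtain ⟨k₁, h1⟩ : ∃ k, σ.length = k + 1 := ⟨σ.length - 1, by
      have := List.length_pos_iff.2 hσ
      omega⟩
    obtain ⟨k₂, h2⟩ : ∃ k, τ.length = k + 1 := ⟨τ.length - 1, by
      have := List.length_pos_iff.2 hτ
      omega⟩
    have hl1 : ∀ i ∈ range (k₁ + 1), (σ.eraseIdx i).length = k₁ := by
      intro i hi
      rw [mem_range] at hi
      rw [List.length_eraseIdx_of_lt (by omega), h1]
      rfl
    have hl2 : ∀ i ∈ range (k₂ + 1), (τ.eraseIdx i).length = k₂ := by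
      intro i hi
      rw [mem_range] at hi
      rw [List.length_eraseIdx_of_lt (by omega), h2]
      rfl
    obtain ⟨hx, hcx⟩ := Ph_main h hD k₁ σ h1
    obtain ⟨hy, hcy⟩ := Ph_main h hD k₂ τ h2
    have hX := rel_sum (K := K) (B := B) (range (k₁ + 1)) fun i hi => Ph_rel h hD k₁ (σ.eraseIdx i) (hl1 i hi)
    have hY := rel_sum (K := K) (B := B) (range (k₂ + 1)) fun i hi => Ph_rel h hD k₂ (τ.eraseIdx i) (hl2 i hi)
    have e1 : ∑ i ∈ range σ.length, HH K B n w r lam (σ.eraseIdx i) τ = ∑ i ∈ range (k₁ + 1),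
        lam (rs K B (n + 1) (cupM r (n + 3 - (k₁ + (k₂ + 1))) (Ph K B n w k₁ (σ.eraseIdx i)) (Ph K B n w (k₂ + 1) τ))) := by
      rw [h1]
      refine sum_congr rfl fun i hi => ?_
      unfold HH
      rw [hl1 i hi, h2]
    have e2 : ∑ i ∈ range τ.length, HH K B n w r lam σ (τ.eraseIdx i) = ∑ i ∈ range (k₂ + 1),
        lam (rs K B (n + 1) (cupM r (n + 3 - (k₁ + 1 + k₂)) (Ph K B n w (k₁ + 1) σ) (Ph K B n w k₂ (τ.eraseIdx i)))) := by
      rw [h2]
      refine sum_congr rfl fun i hi => ?_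
      unfold HH
      rw [hl2 i hi, h1]
    rw [e1, e2]
    unfold HH
    rw [h1, h2]
    by_cases hM : k₁ + 1 + (k₂ + 1) ≤ n + 3
    · obtain ⟨m, hm⟩ : ∃ m, n + 3 = k₁ + 1 + (k₂ + 1) + m := ⟨n + 3 - (k₁ + 1 + (k₂ + 1)), by omega⟩
      have m1 : n + 3 - (k₁ + (k₂ + 1)) = m + 1 := by omega
      have m2 : n + 3 - (k₁ + 1 + k₂) = m + 1 := by omega
      have m3 : n + 3 - (k₁ + 1 + (k₂ + 1)) = m := by omega
      have m4 : n + 3 - (k₂ + 1 + (k₁ + 1)) = m := by omega
      rw [m1, m2, m3, m4, lam_sum_left h _ (fun i hi => Ph_rel h hD k₁ (σ.eraseIdx i) (hl1 i hi)),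
        lam_sum_right h _ hx]
      exact lam_rel h hr hl hx hX hcx hy hY hcy m
    · have m1 : n + 3 - (k₁ + (k₂ + 1)) = 0 := by omega
      have m2 : n + 3 - (k₁ + 1 + k₂) = 0 := by omega
      have m3 : n + 3 - (k₁ + 1 + (k₂ + 1)) = 0 := by omega
      have m4 : n + 3 - (k₂ + 1 + (k₁ + 1)) = 0 := by omega
      rw [m1, m2, m3, m4, lam_zero h _ hy, lam_zero h _ hx, sum_eq_zero fun i _ => lam_zero h _ hy,
        sum_eq_zero fun i hi => lam_zero h _ (Ph_rel h hD k₂ (τ.eraseIdx i) (hl2 i hi))]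
  · intro σ τ hst
    unfold HH
    have m1 : n + 3 - (σ.length + τ.length) = 0 := by omega
    rw [m1, lam_zero h _ (Ph_rel h hD τ.length τ rfl)]
  · intro g
    unfold HH
    have hx := Ph_rel h hD 1 [g] rfl
    have m1 : n + 3 - ([g].length + [g].length) = n + 1 := by
      simp only [List.length_cons, List.length_nil]
      omega
    rw [m1]
    have h2 : rs K B (n + 1) (cupM r (n + 1) (Ph K B n w [g].length [g]) (Ph K B n w [g].length [g])) =
        Ph K B n w 1 [g] := by
      refine Finsupp.ext fun s => ?_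
      have h3 : [g].length = 1 := rfl
      rw [h3, rs_apply (fin_cup h hx _)]
      unfold tr
      split_ifs with h4
      · have h5 := cupM_self r (Ph K B n w 1 [g]) (Ph K B n w 1 [g]) s
        rw [h4.2.2] at h5
        rw [h5]
        have h6 : ∀ a : ZMod 2, a * a = a := by decide
        exact h6 _
      · by_contra h5
        obtain ⟨h6, h7, -, h8⟩ := hx s (Ne.symm h5)
        exact h4 ⟨h6, h7, by omega⟩
    rw [h2]
    have h3 : lam (Ph K B n w 1 [g] + z) = 0 := by
      refine hl _ ?_ (Ph_cls h hD [g])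
      intro t ht
      by_cases h0 : Ph K B n w 1 [g] t = 0
      · refine hD.coc.1 t fun h1 => ht ?_
        rw [Finsupp.add_apply, h0, h1, add_zero]
      · obtain ⟨h6, h7, h8, h9⟩ := hx t h0
        exact ⟨h6, h7, h8, by omega⟩
    rw [map_add, hz] at h3
    exact CharTwo.add_eq_zero.1 h3
  · intro F
    choose S hS1 hS2 using fun σ : List P => Ph_ctl (K := K) (B := B) (n := n) hD.mem σ.length σ rfl
    have hSS : (⋃ σ ∈ (F : Set (List P)), S σ).Finite := F.finite_toSet.biUnion fun σ _ => hS1 σ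
    refine ⟨(h.near hSS).toFinset, fun σ hσ τ hτ p q hne => ?_⟩
    rw [Set.Finite.mem_toFinset]
    unfold HH at hne
    have h1 : rs K B (n + 1) (cupM r (n + 3 - ((σ.map (p * ·)).length + (τ.map (q * ·)).length))
        (Ph K B n w (σ.map (p * ·)).length (σ.map (p * ·))) (Ph K B n w (τ.map (q * ·)).length (τ.map (q * ·)))) ≠ 0 := by
      intro h0
      rw [h0, map_zero] at hne
      exact hne rfl
    obtain ⟨s, hs⟩ := Finsupp.ne_iff.1 h1
    obtain ⟨⟨h2, -, -⟩, h3⟩ := rs_ne hs
    obtain ⟨t, ht, t', ht', h4, h5, -⟩ := cupM_ne h3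
    rw [List.length_map] at h4 h5
    obtain ⟨s₁, hs1, rfl⟩ := hS2 σ p t h4
    obtain ⟨s₂, hs2, rfl⟩ := hS2 τ q t' h5
    have hR1 := Ph_rel h hD σ.length (σ.map (p * ·)) (List.length_map _)
    have hR2 := Ph_rel h hD τ.length (τ.map (q * ·)) (List.length_map _)
    refine ⟨p, s₁, Set.mem_biUnion (mem_coe.2 hσ) hs1, s₂, Set.mem_biUnion (mem_coe.2 hτ) hs2, s, h2,
      (h.mem_iff p s₁).1 (hR1 _ h4).1, (h.mem_iff q s₂).1 (hR2 _ h5).1, ht, ?_⟩
    show (p * (p⁻¹ * q)) • s₂ ⊆ s
    rw [mul_inv_cancel_left]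
    exact ht'

/-- **Intersection numbers of lists.** -/
theorem exists_inter_listC (hM : CohF P K B n) (hA : PAct P K B) : ∃ H : List P → List P → ZMod 2, InterL P n H := by
  obtain ⟨z, hz1, hz2, Z, hZ⟩ := hM.cls
  have h : Prp P K B :=
    { ne := hM.ne
      down := hM.down
      bd_sub := hM.bd_sub
      bd_down := hM.bd_down
      locfin := hM.locfin
      K_mem := hA.K_mem
      B_mem := hA.B_mem
      prop := by
        intro s hs t
        obtain ⟨u, hu⟩ := hM.ne s hs
        have h1 : {g : P | g • s = t} ⊆ ⋃ v ∈ (t : Set U), {g : P | g • u = v} := by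
          intro g hg
          have h2 : g • u ∈ t := by
            rw [← show g • s = t from hg]
            exact smul_mem_smul_finset hu
          exact Set.mem_biUnion (mem_coe.2 h2) rfl
        exact (t.finite_toSet.biUnion fun v _ => hA.proper u v (hM.down s hs {u} (singleton_subset_iff.2 hu)
          (singleton_nonempty u))).subset h1 }
  choose w hw1 hw2 hw3 using hZ
  have hD : Dat K B n z Z w := ⟨hM.low, hz1, hz2, hw1, hw2, hw3⟩
  obtain ⟨r, hr⟩ := exists_tot U
  -- the coboundaries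
  set D : Submodule (ZMod 2) (Finset U →₀ ZMod 2) :=
    { carrier := {f | Rel K B ∅ (n + 1) f ∧ Cobd K B n f}
      add_mem' := by
        rintro a b ⟨ha, ha'⟩ ⟨hb, hb'⟩
        refine ⟨fun t ht => ?_, cobd_add ha' hb'⟩
        by_cases h0 : a t = 0
        · refine hb t fun h1 => ht ?_
          rw [Finsupp.add_apply, h0, h1, add_zero]
        · exact ha t h0
      zero_mem' := ⟨fun t ht => absurd rfl ht, 0, fun t ht => absurd rfl ht, fun t _ _ _ => by simp⟩
      smul_mem' := by
        intro c a ha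
        rcases (show c = 0 ∨ c = 1 by revert c; decide) with rfl | rfl
        · rw [zero_smul]
          exact ⟨fun t ht => absurd rfl ht, 0, fun t ht => absurd rfl ht, fun t _ _ _ => by simp⟩
        · rwa [one_smul] } with hDd
  have hnot : z ∉ D := fun h1 => hz2 h1.2
  obtain ⟨l, hl1, hl2⟩ := Submodule.exists_le_ker_of_notMem hnot
  have h01 : ∀ a : ZMod 2, a ≠ 0 → a = 1 := by decide
  exact ⟨_, inter_HH h hD hr (fun f h1 h2 => LinearMap.mem_ker.1 (hl2 ⟨h1, h2⟩)) (h01 _ hl1)⟩

end Pool.Agent.H74.IT
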