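import Pool.Agent.H74.IT.Base

/-!
# Project IT: the chain map from the lists of elements of the group to the finite cochains

`prim K B q u`: the chosen primitive of `u`, which depends on `u` only.  `Ph K B n w l σ`: the cochain of the list `σ` of
length `l`, on simplices with `n + 2 - l` vertices.  `w g` is a cocycle from a finite set which is cohomologous to the
translate `trn g z`.
-/

set_option autoImplicit false
set_option linter.unusedSectionVars false

open Finset Pointwise

noncomputable section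

namespace Pool.Agent.H74.IT

open Pool.Agent.H37.TM

variable {P U : Type} [Group P] [DecidableEq U] [MulAction P U] {K B : Set (Finset U)} {n : ℕ}

open Classical in
/-- the chosen primitive -/
def prim (K B : Set (Finset U)) (q : ℕ) (u : Finset U →₀ ZMod 2) : Finset U →₀ ZMod 2 :=
  if h : ∃ b : Finset U →₀ ZMod 2, Rel K B ∅ q b ∧ IsCob K B ∅ b u then h.choose else 0

theorem prim_spec {q : ℕ} {u : Finset U →₀ ZMod 2} (h : ∃ b : Finset U →₀ ZMod 2, Rel K B ∅ q b ∧ IsCob K B ∅ b u) :
    Rel K B ∅ q (prim K B q u) ∧ IsCob K B ∅ (prim K B q u) u := by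
  unfold prim
  rw [dif_pos h]
  exact h.choose_spec

/-- the cochains of the lists of length `l` -/
def Ph (K B : Set (Finset U)) (n : ℕ) (w : P → Finset U →₀ ZMod 2) : ℕ → List P → (Finset U →₀ ZMod 2)
  | 0, _ => 0
  | 1, σ => trn (σ.headD 1)⁻¹ (w (σ.headD 1))
  | k + 2, σ => trn (σ.headD 1)⁻¹
      (prim K B (n - k) (trn (σ.headD 1) (∑ i ∈ range (k + 2), Ph K B n w (k + 1) (σ.eraseIdx i))))

theorem Ph_zero (w : P → Finset U →₀ ZMod 2) (σ : List P) : Ph K B n w 0 σ = 0 := by
  unfold Ph
  rfl

theorem Ph_one (w : P → Finset U →₀ ZMod 2) (σ : List P) :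
    Ph K B n w 1 σ = trn (σ.headD 1)⁻¹ (w (σ.headD 1)) := by
  unfold Ph
  rfl

theorem Ph_succ (w : P → Finset U →₀ ZMod 2) (k : ℕ) (σ : List P) :
    Ph K B n w (k + 2) σ = trn (σ.headD 1)⁻¹
      (prim K B (n - k) (trn (σ.headD 1) (∑ i ∈ range (k + 2), Ph K B n w (k + 1) (σ.eraseIdx i)))) := by
  conv_lhs => unfold Ph

/-- the data: `z` is a cocycle, no coboundary, `w g` runs through a finite set of cocycles, and is cohomologous to the
translate of `z` -/
structure Dat (K B : Set (Finset U)) (n : ℕ) (z : Finset U →₀ ZMod 2) (Z : Finset (Finset U →₀ ZMod 2))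
    (w : P → Finset U →₀ ZMod 2) : Prop where
  low : ∀ j < n, ∀ v, Cocy K B j v → Cobd K B j v
  coc : Cocy K B n z
  not : ¬ Cobd K B n z
  mem : ∀ g, w g ∈ Z
  wcoc : ∀ g, Cocy K B n (w g)
  wcob : ∀ g, Cobd K B n (trn g z + w g)

end Pool.Agent.H74.IT
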